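import Mathlib
import Pool.Agent.Helper18.EW.Goals3
import Pool.Agent.Helper18.SG.Main2
import Pool.Agent.Helper43.Gm.Main
import Pool.Agent.Helper56.Hw.H16
import Pool.Agent.Lead.RwMain

/-!
# Packet EW-Fin: the window theorem
-/

set_option autoImplicit false

namespace Pool.Agent.Helper46.EW

open Finset
open Pool.Agent.Helper43.Hw (NS T T_choose two_T)
open Pool.Agent.Helper43.Hw.PkH16 (ns_of_concl)
open Pool.Agent.Helper18.EW

theorem ns_of_fill {n m d : ℕ}
    (h : (n * (m + 1).choose 2 ≤ (d + 2).choose 2 ∧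
        Pool.Agent.Lead.Sh.Ind (Pool.Agent.Lead.Sh.triD 0 d)
          (Pool.Agent.Lead.Sh.rows (fun _ => m) (range n))) ∨
      ((d + 2).choose 2 ≤ n * (m + 1).choose 2 ∧
        Pool.Agent.Lead.Sh.Inj (Pool.Agent.Lead.Sh.triD 0 d)
          (Pool.Agent.Lead.Sh.rows (fun _ => m) (range n)))) : NS n m d := by
  have hs : ∑ i ∈ range n, Nat.choose ((fun _ : ℕ => m) i + 1) 2 = n * (m + 1).choose 2 := by
    simp
  obtain ⟨G, hG, h2⟩ := Pool.Agent.Lead.Rw.concl n (fun _ => m) d (by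
    rw [hs]
    exact h)
  refine ⟨G, hG, fun P hP hP2 => ?_⟩
  rw [h2 P hP hP2]
  simp

theorem anti_step (n m : ℕ) : Antitone (fun i => if i < n then m else 0) := by
  intro a b hab
  show (if b < n then m else 0) ≤ (if a < n then m else 0)
  split_ifs <;> omega

theorem sum_step (n m : ℕ) :
    ∑ i : Fin n, (((fun i => if i < n then m else 0) (i : ℕ) + 1).choose 2 : ℤ) =
      n * ((m + 1).choose 2 : ℤ) := by
  have : ∀ i : Fin n, (((fun i => if i < n then m else 0) (i : ℕ) + 1).choose 2 : ℤ) =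
      ((m + 1).choose 2 : ℤ) := fun i => by
    show (((if (i : ℕ) < n then m else 0) + 1).choose 2 : ℤ) = _
    rw [if_pos i.2]
  rw [Finset.sum_congr rfl fun i _ => this i]
  simp

/-- far from the window -/
theorem far {n m d : ℕ} (hn : 1 ≤ n) (hm : 1 ≤ m)
    (c1 : 3 * (m : ℤ) ^ 2 ≤ |((d + 2).choose 2 : ℤ) - n * ((m + 1).choose 2 : ℤ)|) : NS n m d := by
  have h0 : (if 0 < n then m else 0) = m := if_pos (by omega)
  refine ns_of_concl (Pool.Agent.Helper43.Gm.main_all n (fun i => if i < n then m else 0) d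
    (anti_step n m) (fun i hi => by
      show (if i < n then m else 0) = 0
      rw [if_neg (by omega)]) ?_)
  rw [sum_step]
  simp only [h0]
  have hm1 : (1 : ℤ) ≤ m := by exact_mod_cast hm
  rcases le_total 0 (((d + 2).choose 2 : ℤ) - n * ((m + 1).choose 2 : ℤ)) with h6 | h6
  · left
    rw [abs_of_nonneg h6] at c1
    have h7 : (0 : ℤ) ≤ ((Finset.univ.filter (fun i : Fin n =>
      (if (i : ℕ) < n then m else 0) = 1)).card : ℤ) := by positivity
    nlinarith
  · right
    rw [abs_of_nonpos h6] at c1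
    nlinarith

theorem two_choose (k : ℕ) : 2 * ((k + 1).choose 2 : ℤ) = k * (k + 1) := by
  have h2 : ((2 * T k : ℕ) : ℤ) = ((k * (k + 1) : ℕ) : ℤ) := by rw [two_T]
  rw [T_choose] at h2
  push_cast at h2
  linarith

/-- many points -/
theorem many {n m d : ℕ} (hm : 1 ≤ m) (hnm : 433 * m < n)
    (c1 : |((d + 2).choose 2 : ℤ) - n * ((m + 1).choose 2 : ℤ)| < 3 * (m : ℤ) ^ 2) : NS n m d := by
  have e1 := two_choose m
  have e2 : 2 * ((d + 2).choose 2 : ℤ) = (d + 1) * (d + 2) := by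
    have := two_choose (d + 1)
    push_cast at this ⊢
    linarith
  have hm1 : (1 : ℤ) ≤ m := by exact_mod_cast hm
  have hn1 : 433 * (m : ℤ) + 1 ≤ n := by exact_mod_cast hnm
  have hlt := (abs_lt.1 c1).1
  have hd : 3 * m ≤ d := by
    by_contra hcon
    have hd1 : (d : ℤ) + 1 ≤ 3 * m := by
      have : d + 1 ≤ 3 * m := by omega
      exact_mod_cast this
    have h1 : ((d : ℤ) + 1) * (d + 2) ≤ 3 * m * (3 * m + 1) := by nlinarith
    have h2 : (433 * (m : ℤ) + 1) * (m * (m + 1)) ≤ n * (m * (m + 1)) :=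
      mul_le_mul_of_nonneg_right hn1 (by nlinarith)
    have h3 : (m : ℤ) ^ 2 ≤ m * (m * (m + 1)) := by nlinarith
    have h4 : (m : ℤ) ≤ m ^ 2 := by nlinarith
    nlinarith
  have hval : ∀ i, i < n → (fun i => if i < n then m else 0) i = m := fun i hi => by
    show (if i < n then m else 0) = m
    rw [if_pos hi]
  have hn9 : 9 < n := by omega
  refine ns_of_concl (Pool.Agent.Helper18.SG.main_room n (fun i => if i < n then m else 0) d
    (anti_step n m) (fun i hi => by
      show (if i < n then m else 0) = 0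
      rw [if_neg (by omega)]) ?_ ?_)
  · show (if 0 < n then m else 0) + (if 1 < n then m else 0) + (if 2 < n then m else 0) ≤ d
    rw [if_pos (by omega), if_pos (by omega), if_pos (by omega)]
    omega
  · right; right; right
    have h9 : (if 9 < n then m else 0) = m := if_pos hn9
    show 216 * (if 9 < n then m else 0) ^ 3 + 123 * (if 9 < n then m else 0) ^ 2 ≤ _
    rw [h9]
    have hsum : ∑ i ∈ Ico 9 n, ((fun i => if i < n then m else 0) i + 1).choose 2 =
        (n - 9) * (m + 1).choose 2 := by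
      rw [Finset.sum_congr rfl (g := fun _ => (m + 1).choose 2) fun i hi => by
        rw [hval i (Finset.mem_Ico.1 hi).2]]
      simp
    rw [hsum]
    obtain ⟨k, hk⟩ : ∃ k, n = 9 + k := ⟨n - 9, by omega⟩
    have hk1 : n - 9 = k := by omega
    rw [hk1]
    have hk2 : 433 * (m : ℤ) - 8 ≤ k := by
      have : 433 * m + 1 ≤ 9 + k := by omega
      have h2 : 433 * (m : ℤ) + 1 ≤ 9 + k := by exact_mod_cast this
      linarith
    have h3 : (216 * (m : ℤ) ^ 3 + 123 * (m : ℤ) ^ 2) ≤ k * ((m + 1).choose 2 : ℤ) := by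
      have h4 : (433 * (m : ℤ) - 8) * (m * (m + 1)) ≤ k * (m * (m + 1)) :=
        mul_le_mul_of_nonneg_right hk2 (by nlinarith)
      have h5 : (0 : ℤ) ≤ m ^ 2 * (m - 1) := by
        have : (0 : ℤ) ≤ m - 1 := by linarith
        positivity
      have h6 : (0 : ℤ) ≤ m * (m - 1) := by
        have : (0 : ℤ) ≤ m - 1 := by linarith
        positivity
      nlinarith
    exact_mod_cast h3

theorem goalFin : GoalFin := by
  intro hNC hFA
  obtain ⟨C, c, hC, hc, hNC⟩ := hNC
  refine ⟨C, c, by linarith, hc, ?_⟩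
  intro n m d hn hm hw
  by_cases c1 : 3 * (m : ℤ) ^ 2 ≤ |((d + 2).choose 2 : ℤ) - n * ((m + 1).choose 2 : ℤ)|
  · exact far hn hm c1
  push Not at c1
  by_cases c2 : 433 * m < n
  · exact many hm c2 c1
  push Not at c2
  set e : ℤ := ((d + 2).choose 2 : ℤ) - n * ((m + 1).choose 2 : ℤ) with he
  have heR : ((d + 2).choose 2 : ℝ) - n * ((m + 1).choose 2 : ℝ) = (e : ℝ) := by
    rw [he]
    push_cast
    rfl
  rw [heR] at hw
  have hWZ : (e.natAbs : ℤ) = |e| := Int.natCast_natAbs e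
  have hWR : (e.natAbs : ℝ) = |(e : ℝ)| := by
    exact Nat.cast_natAbs e |>.trans (Int.cast_abs)
  have hW3 : e.natAbs ≤ 3 * m ^ 2 := by
    have : (e.natAbs : ℤ) ≤ 3 * (m : ℤ) ^ 2 := by rw [hWZ]; exact c1.le
    exact_mod_cast this
  obtain ⟨Lg, h1, h2, h3, h4⟩ := hNC n m e.natAbs hn hm c2 hW3 (by rw [hWR]; exact hw)
  exact ns_of_fill (hFA n m d Lg e.natAbs h1 h2 h3 c2 hW3 (by rw [hWZ, he]) h4)

end Pool.Agent.Helper46.EW
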